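import Pool.Agent.Q217.FL.Dip

set_option autoImplicit false

/-!
# Uncountably many axiomatic extensions of `FL_ew` have deductive interpolation

For a set `P` of odd primes let `K_P` be the class of the algebras `A(X, Y, ∗)` where `∗ : X × X → Y` is
commutative and injective in each variable and `(X, Y, ∗)` contains no copy of `(ℤ/p, ℤ/p, +)`, `p ∈ P`.
The elements of `A(X, Y, ∗)` are `0 < Y < b < X < c < 1` (`X` and `Y` are antichains); products:
`x x' = x ∗ x'`, `x c = c c = b`, all other products of nonunits are `0`. The class is closed under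
ultraproducts, its algebras have a unique coatom and satisfy `a³ = 0` for `a ≠ 1`, and it has free
amalgamation; so its logic has the DIP. Different `P` give different logics.
-/

namespace Pool.Agent.Results.MP_db33a0_lc.UncountablyManyDIP

open Pool.Agent.Q217.FL

/-- There are uncountably many (in fact continuum many) axiomatic extensions of `FL_ew` with the
deductive interpolation property. -/
theorem result :
    ¬ Set.Countable {R : Set Fml → Fml → Prop | AxiomaticExtension R ∧ DIP R} ∧
    ∃ F : Set ℕ → Set Fml → Fml → Prop, Function.Injective F ∧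
      ∀ A : Set ℕ, AxiomaticExtension (F A) ∧ DIP (F A) := by
  classical
  have hinf : {p : ℕ | p.Prime ∧ p ≠ 2}.Infinite := by
    have h := Nat.infinite_setOfPred_prime.sdiff (Set.finite_singleton 2)
    exact h.mono fun p hp => ⟨hp.1, hp.2⟩
  have : Infinite {p : ℕ | p.Prime ∧ p ≠ 2} := hinf.to_subtype
  let g : ℕ ↪ {p : ℕ | p.Prime ∧ p ≠ 2} := Infinite.natEmbedding _
  have hF : ∃ F : Set ℕ → Set Fml → Fml → Prop, Function.Injective F ∧
      ∀ A : Set ℕ, AxiomaticExtension (F A) ∧ DIP (F A) := by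
    have hP : ∀ A : Set ℕ, ∀ p ∈ {p : ℕ | ∃ n ∈ A, (g n : ℕ) = p}, p.Prime ∧ p ≠ 2 := by
      rintro A p ⟨n, -, rfl⟩
      exact (g n).2
    refine ⟨fun A => Cons {p | ∃ n ∈ A, (g n : ℕ) = p}, fun A B hAB => ?_, fun A =>
      ⟨cons_ext fun p hp => (hP A p hp).1.ne_zero, dip (hP A)⟩⟩
    have h1 := cons_inj (hP A) (hP B) hAB
    ext n
    constructor
    · intro hn
      have h2 : (g n : ℕ) ∈ {p | ∃ n ∈ B, (g n : ℕ) = p} := h1 ▸ ⟨n, hn, rfl⟩
      obtain ⟨m, hm, h3⟩ := h2
      rwa [← g.injective (Subtype.ext h3)]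
    · intro hn
      have h2 : (g n : ℕ) ∈ {p | ∃ n ∈ A, (g n : ℕ) = p} := h1 ▸ ⟨n, hn, rfl⟩
      obtain ⟨m, hm, h3⟩ := h2
      rwa [← g.injective (Subtype.ext h3)]
  refine ⟨?_, hF⟩
  obtain ⟨F, hF1, hF2⟩ := hF
  intro hc
  have hc' : Countable {R : Set Fml → Fml → Prop | AxiomaticExtension R ∧ DIP R} := hc
  obtain ⟨f, hf⟩ := exists_injective_nat {R : Set Fml → Fml → Prop | AxiomaticExtension R ∧ DIP R}
  refine Function.cantor_injective (fun A : Set ℕ => f ⟨F A, hF2 A⟩) fun A B hAB => ?_
  exact hF1 (congrArg Subtype.val (hf hAB))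

end Pool.Agent.Results.MP_db33a0_lc.UncountablyManyDIP
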